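import Pool.Agent.Q196.BmoX

/-!
# `BMO ↪ BMO_X` does not imply `BMO_X^* ↪ BMO`

In every dimension there is a normalized family of Banach function spaces `X = {X_Q}` (weighted
`L¹` spaces) with `BMO ↪ BMO_X` for which `BMO_X^*` does not embed into `BMO`.

The space of the cube `Q` is `L¹` of `|Q|⁻¹ (χ_E + ε χ_Q)`, where `E` is the part of `Q` over an
interval of the first axis which contains no power of ten in its interior and has at least an eighth
of the length of the side, and `ε = 1 / (⌈b⌉ + 1)`, `b` being the right end of the first side.  The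
functions `χ {x₀ ≥ 10 ^ j}` have `BMO`-norm at least `1/2` and `BMO_X^*`-norm at most `1 / (j + 1)`.
-/

namespace Pool.Agent.Results.MP_ea8870_an.StarEmbeddingFails

open Pool.Agent.Q196.BmoX

theorem result (m : ℕ) :
    ∃ X : Family (m + 1), IsNormalized X ∧ IsBanachFamily X ∧
      Embeds (BMO (m + 1)) bmoNorm (BMOX X) (bmoXNorm X) ∧
      ¬ Embeds (BMOXStar X) (bmoXStarNorm X) (BMO (m + 1)) bmoNorm :=
  ⟨fam m, fam_normalized, fam_banach, fam_embeds, not_embeds⟩

end Pool.Agent.Results.MP_ea8870_an.StarEmbeddingFails
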